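import Mathlib

set_option autoImplicit false

namespace Pool.Agent.Results.MP_1fb722_al.Orderings

/-- `x ⪯_Γ y`: the difference `y - x` lies in `Γ`. -/
def Dvd (Γ : AddSubmonoid ℕ) (x y : ℕ) : Prop := ∃ z ∈ Γ, y = x + z

/-- `N` has the defining property for `x`: whenever `x ⪯_Γ a_1 + ⋯ + a_r` with all `a_j ∈ Γ`,
already `x ⪯_Γ` the sum of at most `N` of the `a_j`. -/
def Bound (Γ : AddSubmonoid ℕ) (x N : ℕ) : Prop :=
  ∀ (r : ℕ) (a : Fin r → ℕ), (∀ j, a j ∈ Γ) → Dvd Γ x (∑ j, a j) →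
    ∃ T : Finset (Fin r), T.card ≤ N ∧ Dvd Γ x (∑ j ∈ T, a j)

/-- The `ω`-primality value: the least positive `N` with the defining property. -/
noncomputable def omega (Γ : AddSubmonoid ℕ) (x : ℕ) : ℕ := sInf {N | 0 < N ∧ Bound Γ x N}

theorem pick {ι : Type} [Fintype ι] (f : ι → ℕ) (a : ℕ) (h : a ≤ ∑ j, f j) :
    ∃ T : Finset ι, T.card ≤ a ∧ a ≤ ∑ j ∈ T, f j := by
  classical
  by_cases h1 : (Finset.univ.filter fun j => f j ≠ 0).card ≤ a
  · exact ⟨_, h1, by rwa [Finset.sum_filter_ne_zero]⟩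
  · obtain ⟨T, hT, hc⟩ := Finset.exists_subset_card_eq (le_of_not_ge h1)
    refine ⟨T, hc.le, ?_⟩
    have := Finset.card_nsmul_le_sum T f 1 fun j hj => by
      have := (Finset.mem_filter.1 (hT hj)).2; omega
    simpa [hc] using this

section
variable {n₁ n₂ n₃ : ℕ}

theorem mem_iff (y : ℕ) : y ∈ AddSubmonoid.closure ({n₁, n₂, n₃} : Set ℕ) ↔
    ∃ a b c, y = a * n₁ + b * n₂ + c * n₃ := by
  constructor
  · intro h
    induction h using AddSubmonoid.closure_induction with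
    | mem x hx =>
      rcases hx with rfl | rfl | rfl
      exacts [⟨1, 0, 0, by simp⟩, ⟨0, 1, 0, by simp⟩, ⟨0, 0, 1, by simp⟩]
    | zero => exact ⟨0, 0, 0, by simp⟩
    | add x y _ _ h1 h2 =>
      obtain ⟨a, b, c, rfl⟩ := h1
      obtain ⟨d, e, f, rfl⟩ := h2
      exact ⟨a + d, b + e, c + f, by ring⟩
  · rintro ⟨a, b, c, rfl⟩
    refine add_mem (add_mem ?_ ?_) ?_ <;>
      exact AddSubmonoid.nsmul_mem _ (AddSubmonoid.subset_closure (by simp)) _

/-- Proof device: divisibility in coordinates. -/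
def D (n₁ n₂ n₃ x y : ℕ) : Prop := ∃ u v t, y = x + (u * n₁ + v * n₂ + t * n₃)

theorem dvd_iff (x y : ℕ) : Dvd (AddSubmonoid.closure {n₁, n₂, n₃}) x y ↔ D n₁ n₂ n₃ x y := by
  simp only [Dvd, mem_iff, D]
  exact ⟨fun ⟨_, ⟨u, v, t, h⟩, h'⟩ => ⟨u, v, t, h ▸ h'⟩, fun ⟨u, v, t, h⟩ => ⟨_, ⟨u, v, t, rfl⟩, h⟩⟩

theorem bound_of {x w : ℕ} (H : ∀ a b c, D n₁ n₂ n₃ x (a * n₁ + b * n₂ + c * n₃) →
    ∃ a' ≤ a, ∃ b' ≤ b, ∃ c' ≤ c, a' + b' + c' ≤ w ∧ D n₁ n₂ n₃ x (a' * n₁ + b' * n₂ + c' * n₃)) :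
    Bound (AddSubmonoid.closure {n₁, n₂, n₃}) x w := by
  classical
  intro r f hf h
  choose α β γ hf using fun j => (mem_iff _).1 (hf j)
  have hs : ∀ T : Finset (Fin r), ∑ j ∈ T, f j =
      (∑ j ∈ T, α j) * n₁ + (∑ j ∈ T, β j) * n₂ + (∑ j ∈ T, γ j) * n₃ := fun T => by
    simp only [hf, Finset.sum_add_distrib, Finset.sum_mul]
  rw [dvd_iff, hs] at h
  obtain ⟨a, ha, b, hb, c, hc, hw, u, v, t, h⟩ := H _ _ _ h
  obtain ⟨A, hA, hA'⟩ := pick α a ha
  obtain ⟨B, hB, hB'⟩ := pick β b hb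
  obtain ⟨C, hC, hC'⟩ := pick γ c hc
  refine ⟨A ∪ B ∪ C, ?_, ?_⟩
  · have := Finset.card_union_le (A ∪ B) C
    have := Finset.card_union_le A B
    omega
  · rw [dvd_iff, hs]
    obtain ⟨a', ha'⟩ := Nat.exists_eq_add_of_le (hA'.trans (Finset.sum_le_sum_of_subset
      (show A ⊆ A ∪ B ∪ C from fun j hj => by simp [hj])))
    obtain ⟨b', hb'⟩ := Nat.exists_eq_add_of_le (hB'.trans (Finset.sum_le_sum_of_subset
      (show B ⊆ A ∪ B ∪ C from fun j hj => by simp [hj])))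
    obtain ⟨c', hc'⟩ := Nat.exists_eq_add_of_le (hC'.trans (Finset.sum_le_sum_of_subset
      (show C ⊆ A ∪ B ∪ C from fun j hj => by simp [hj])))
    exact ⟨u + a', v + b', t + c', by rw [ha', hb', hc']; linarith⟩

theorem of_bound {x w : ℕ} (H : Bound (AddSubmonoid.closure {n₁, n₂, n₃}) x w) (a b : ℕ)
    (h : D n₁ n₂ n₃ x (a * n₁ + b * n₂)) :
    ∃ a' ≤ a, ∃ b' ≤ b, a' + b' ≤ w ∧ D n₁ n₂ n₃ x (a' * n₁ + b' * n₂) := by
  classical
  let g : Fin a ⊕ Fin b → ℕ := Sum.elim (fun _ => n₁) (fun _ => n₂)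
  obtain ⟨T, hT, h'⟩ := H (a + b) (fun j => g (finSumFinEquiv.symm j))
    (fun j => AddSubmonoid.subset_closure (by rcases finSumFinEquiv.symm j with _ | _ <;> simp [g]))
    (by rw [dvd_iff, Equiv.sum_comp]; simpa [g] using h)
  have h1 : ∑ j ∈ T, g (finSumFinEquiv.symm j) = ∑ j ∈ T.map finSumFinEquiv.symm.toEmbedding, g j := by
    rw [Finset.sum_map]; rfl
  rw [dvd_iff, h1, Finset.sum_sum_eq_sum_toLeft_add_sum_toRight] at h'
  refine ⟨_, (Finset.card_le_univ _).trans (Fintype.card_fin a).le, _,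
    (Finset.card_le_univ _).trans (Fintype.card_fin b).le, ?_, by simpa [g] using h'⟩
  rw [Finset.card_toLeft_add_card_toRight, Finset.card_map]
  exact hT

theorem core {w : ℕ} (h0 : 0 < n₁) (h12 : n₁ < n₂) (h23 : n₂ < n₃)
    (hw : Bound (AddSubmonoid.closure {n₁, n₂, n₃}) n₃ w) :
    Bound (AddSubmonoid.closure {n₁, n₂, n₃}) n₁ w ∨
      Bound (AddSubmonoid.closure {n₁, n₂, n₃}) n₂ w := by
  classical
  have H := of_bound hw
  have hex : ∃ c, 0 < c ∧ ∃ r s, c * n₃ = r * n₁ + s * n₂ := ⟨n₁, h0, n₃, 0, by ring⟩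
  obtain ⟨e, he0, ⟨r, s, he⟩, hmin⟩ : ∃ e, 0 < e ∧ (∃ r s, e * n₃ = r * n₁ + s * n₂) ∧
      ∀ c r s, 0 < c → c * n₃ = r * n₁ + s * n₂ → e ≤ c :=
    ⟨_, (Nat.find_spec hex).1, (Nat.find_spec hex).2, fun c r s h1 h2 =>
      Nat.find_min' hex ⟨h1, r, s, h2⟩⟩
  have hew : e ≤ w := by
    obtain ⟨e, rfl⟩ : ∃ e', e = e' + 1 := ⟨e - 1, by omega⟩
    obtain ⟨a, ha, b, hb, hab, u, v, t, h⟩ := H r s ⟨0, 0, e, by linarith⟩
    obtain ⟨a', rfl⟩ := Nat.exists_eq_add_of_le ha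
    obtain ⟨b', rfl⟩ := Nat.exists_eq_add_of_le hb
    have h1 : e ≤ t := by
      by_contra h1
      obtain ⟨d, rfl⟩ := Nat.exists_eq_add_of_lt (not_le.1 h1)
      have := hmin (d + 1) (u + a') (v + b') (by omega) (by linarith)
      omega
    have h2 : (e + 1) * n₃ ≤ (a + b) * n₃ := by nlinarith
    exact (Nat.le_of_mul_le_mul_right h2 (by omega)).trans hab
  obtain ⟨p, hp, pb, pc, hp'⟩ : ∃ p ≤ w, ∃ b c, p * n₁ = b * n₂ + (c + 1) * n₃ := by
    obtain ⟨m, rfl⟩ : ∃ m, n₁ = m + 1 := ⟨n₁ - 1, by omega⟩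
    obtain ⟨a, -, b, hb, hab, u, v, t, h⟩ := H n₃ 0 ⟨0, 0, m, by ring⟩
    obtain rfl : b = 0 := by omega
    have h1 : u ≤ a := Nat.le_of_mul_le_mul_right (c := m + 1) (by nlinarith) h0
    obtain ⟨d, rfl⟩ := Nat.exists_eq_add_of_le h1
    exact ⟨d, by omega, v, t, by linarith⟩
  obtain ⟨q, hq, qa, qc, hq'⟩ : ∃ q ≤ w, ∃ a c, q * n₂ = a * n₁ + (c + 1) * n₃ := by
    obtain ⟨m, rfl⟩ : ∃ m, n₂ = m + 1 := ⟨n₂ - 1, by omega⟩
    obtain ⟨a, ha, b, -, hab, u, v, t, h⟩ := H 0 n₃ ⟨0, 0, m, by ring⟩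
    obtain rfl : a = 0 := by omega
    have h1 : v ≤ b := Nat.le_of_mul_le_mul_right (c := m + 1) (by nlinarith) (by omega)
    obtain ⟨d, rfl⟩ := Nat.exists_eq_add_of_le h1
    exact ⟨d, by omega, u, t, by linarith⟩
  by_cases hA : D n₁ n₂ n₃ n₁ (e * n₃)
  · left
    have hq1 : D n₁ n₂ n₃ n₁ (q * n₂) := by
      rcases qa with _ | qa
      · obtain ⟨d, hd⟩ := Nat.exists_eq_add_of_le (hmin (qc + 1) 0 q (by omega) (by linarith))
        obtain ⟨u, v, t, h⟩ := hA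
        exact ⟨u, v, t + d, by rw [hq', hd]; linarith⟩
      · exact ⟨qa, 0, qc + 1, by linarith⟩
    have key : ∀ N b c, b + c ≤ N → D n₁ n₂ n₃ n₁ (b * n₂ + c * n₃) →
        ∃ b' ≤ b, ∃ c' ≤ c, b' + c' ≤ w ∧ D n₁ n₂ n₃ n₁ (b' * n₂ + c' * n₃) := by
      intro N
      induction N with
      | zero => exact fun b c h1 h2 => ⟨b, le_rfl, c, le_rfl, by omega, h2⟩
      | succ N ih =>
        intro b c h1 h2
        by_cases h3 : e ≤ c
        · exact ⟨0, by omega, e, h3, by omega, by simpa using hA⟩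
        by_cases h4 : q ≤ b
        · exact ⟨q, h4, 0, by omega, by omega, by simpa using hq1⟩
        rcases b with _ | b
        · exact ⟨0, le_rfl, c, le_rfl, by omega, h2⟩
        rcases c with _ | c
        · exact ⟨_, le_rfl, 0, le_rfl, by omega, h2⟩
        obtain ⟨u, v, t, h⟩ := h2
        rcases v with _ | v
        · rcases t with _ | t
          · by_cases h5 : p ≤ u
            · obtain ⟨d, rfl⟩ := Nat.exists_eq_add_of_le h5
              obtain ⟨b', hb, c', hc, h6⟩ := ih (b + 1) c (by omega) ⟨d, pb, pc, by linarith⟩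
              exact ⟨b', hb, c', by omega, h6⟩
            · have h6 : (b + 1 + (c + 1)) * n₁ ≤ (u + 1) * n₁ := by nlinarith
              have := Nat.le_of_mul_le_mul_right h6 h0
              exact ⟨_, le_rfl, _, le_rfl, by omega, u, 0, 0, h⟩
          · obtain ⟨b', hb, c', hc, h6⟩ := ih (b + 1) c (by omega) ⟨u, 0, t, by linarith⟩
            exact ⟨b', hb, c', by omega, h6⟩
        · obtain ⟨b', hb, c', hc, h6⟩ := ih b (c + 1) (by omega) ⟨u, v, t, by linarith⟩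
          exact ⟨b', by omega, c', hc, h6⟩
    refine bound_of fun a b c h => ?_
    rcases a with _ | a
    · obtain ⟨b', hb, c', hc, h1, h2⟩ := key _ b c le_rfl (by simpa using h)
      exact ⟨0, le_rfl, b', hb, c', hc, by omega, by simpa using h2⟩
    · exact ⟨1, by omega, 0, by omega, 0, by omega, by omega, 0, 0, 0, by simp⟩
  · right
    obtain rfl : r = 0 := by
      rcases r with _ | r
      · rfl
      · exact absurd ⟨r, s, 0, by linarith⟩ hA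
    have hB : D n₁ n₂ n₃ n₂ (e * n₃) := by
      rcases s with _ | s
      · nlinarith
      · exact ⟨0, s, 0, by linarith⟩
    have hp1 : D n₁ n₂ n₃ n₂ (p * n₁) := by
      rcases pb with _ | pb
      · obtain ⟨d, hd⟩ := Nat.exists_eq_add_of_le (hmin (pc + 1) p 0 (by omega) (by linarith))
        obtain ⟨u, v, t, h⟩ := hB
        exact ⟨u, v, t + d, by rw [hp', hd]; linarith⟩
      · exact ⟨0, pb, pc + 1, by linarith⟩
    have key : ∀ N a c, a + c ≤ N → D n₁ n₂ n₃ n₂ (a * n₁ + c * n₃) →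
        ∃ a' ≤ a, ∃ c' ≤ c, a' + c' ≤ w ∧ D n₁ n₂ n₃ n₂ (a' * n₁ + c' * n₃) := by
      intro N
      induction N with
      | zero => exact fun b c h1 h2 => ⟨b, le_rfl, c, le_rfl, by omega, h2⟩
      | succ N ih =>
        intro a c h1 h2
        by_cases h3 : e ≤ c
        · exact ⟨0, by omega, e, h3, by omega, by simpa using hB⟩
        by_cases h4 : p ≤ a
        · exact ⟨p, h4, 0, by omega, by omega, by simpa using hp1⟩
        rcases a with _ | a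
        · exact ⟨0, le_rfl, c, le_rfl, by omega, h2⟩
        rcases c with _ | c
        · exact ⟨_, le_rfl, 0, le_rfl, by omega, h2⟩
        obtain ⟨u, v, t, h⟩ := h2
        rcases u with _ | u
        · rcases t with _ | t
          · by_cases h5 : s ≤ v
            · obtain ⟨d, rfl⟩ := Nat.exists_eq_add_of_le h5
              obtain ⟨f, rfl⟩ := Nat.exists_eq_add_of_lt (not_le.1 h3)
              exact ⟨_, le_rfl, 0, by omega, by omega, 0, d, f + 1, by linarith⟩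
            · obtain ⟨d, rfl⟩ := Nat.exists_eq_add_of_lt (not_le.1 h5)
              exact absurd ⟨a, d, c + 1, by linarith⟩ hA
          · obtain ⟨b', hb, c', hc, h6⟩ := ih (a + 1) c (by omega) ⟨0, v, t, by linarith⟩
            exact ⟨b', hb, c', by omega, h6⟩
        · obtain ⟨b', hb, c', hc, h6⟩ := ih a (c + 1) (by omega) ⟨u, v, t, by linarith⟩
          exact ⟨b', by omega, c', hc, h6⟩
    refine bound_of fun a b c h => ?_
    rcases b with _ | b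
    · obtain ⟨a', ha, c', hc, h1, h2⟩ := key _ a c le_rfl (by simpa using h)
      exact ⟨a', ha, 0, le_rfl, c', hc, by omega, by simpa using h2⟩
    · exact ⟨0, by omega, 1, by omega, 0, by omega, by omega, 0, 0, 0, by simp⟩

end

theorem result (n₁ n₂ n₃ : ℕ) (h0 : 0 < n₁) (h12 : n₁ < n₂) (h23 : n₂ < n₃) (Γ : AddSubmonoid ℕ)
    (hΓ : Γ = AddSubmonoid.closure {n₁, n₂, n₃}) (hfin : (Γ : Set ℕ)ᶜ.Finite) :
    ¬ (omega Γ n₁ > omega Γ n₂ ∧ omega Γ n₂ > omega Γ n₃) ∧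
    ¬ (omega Γ n₁ = omega Γ n₂ ∧ omega Γ n₂ > omega Γ n₃) ∧
    ¬ (omega Γ n₃ < omega Γ n₁ ∧ omega Γ n₁ < omega Γ n₂) := by
  obtain ⟨B, hB⟩ := hfin.bddAbove
  have hne : {N | 0 < N ∧ Bound Γ n₃ N}.Nonempty := by
    refine ⟨B + 1 + n₃, by omega, fun r a _ h => ?_⟩
    by_cases h1 : B + 1 + n₃ ≤ ∑ j, a j
    · obtain ⟨T, hT, h2⟩ := pick a _ h1
      refine ⟨T, hT, ∑ j ∈ T, a j - n₃, ?_, by omega⟩
      by_contra h3
      have := hB h3
      omega
    · obtain ⟨T, hT, h2⟩ := pick a _ le_rfl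
      have h3 : ∑ j ∈ T, a j ≤ ∑ j, a j := Finset.sum_le_sum_of_subset (Finset.subset_univ T)
      exact ⟨T, by omega, by rwa [le_antisymm h3 h2]⟩
  obtain ⟨h1, h2⟩ := Nat.sInf_mem hne
  subst hΓ
  have : omega _ n₁ ≤ omega _ n₃ ∨ omega _ n₂ ≤ omega _ n₃ :=
    (core h0 h12 h23 h2).imp (fun h => Nat.sInf_le ⟨h1, h⟩) fun h => Nat.sInf_le ⟨h1, h⟩
  omega

end Pool.Agent.Results.MP_1fb722_al.Orderings
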